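import Pool.Agent.Y503.HS.Iso
import Pool.Agent.Helper831.HQ.Defs

/-!
# A smooth Riemannian submersion from a Hilbert space onto `S³ × S³`
-/

open scoped Quaternion ENNReal Topology BoundedContinuousFunction Interval ContDiff
open Set MeasureTheory

noncomputable section

namespace Pool.Agent.Y503.HS

open HQ

/-- The quadratic form on the pairs of imaginary quaternions which defines the left invariant metric
on `S³ × S³`. -/
def QF (a b : ℝ) (ξ : ℍ × ℍ) : ℝ :=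
  ‖ξ.1‖ ^ 2 + ‖ξ.2‖ ^ 2 - (a * ξ.1.imI + b * ξ.2.imI) ^ 2 / (1 + a ^ 2 + b ^ 2)

/-- `f` is a smooth Riemannian submersion from the Hilbert space `H` onto `S³ × S³` with the left
invariant Riemannian metric whose value on the Lie algebra is the quadratic form `Q`. -/
structure IsRiemannianSubmersion {H : Type} [NormedAddCommGroup H] [InnerProductSpace ℝ H]
    (Q : ℍ × ℍ → ℝ) (f : H → ℍ × ℍ) : Prop where
  smooth : ContDiff ℝ ∞ f
  maps : ∀ x, f x ∈ S33
  surj : ∀ q ∈ S33, ∃ x, f x = q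
  tangent : ∀ x z, inner ℝ (f x).1 (fderiv ℝ f x z).1 = 0 ∧ inner ℝ (f x).2 (fderiv ℝ f x z).2 = 0
  surj_fderiv : ∀ x, ∀ v : ℍ × ℍ, inner ℝ (f x).1 v.1 = 0 → inner ℝ (f x).2 v.2 = 0 →
    ∃ z, fderiv ℝ f x z = v
  isometric : ∀ x z, (∀ y, fderiv ℝ f x y = 0 → inner ℝ z y = 0) →
    Q (star (f x) * fderiv ℝ f x z) = ‖z‖ ^ 2

/-! ### The Hilbert space -/

/-- The Hilbert space. -/
abbrev HH : Type := WithLp 2 (WithLp 2 (L2 × L2) × ℝ)

/-- first control -/
def p1 : HH →L[ℝ] L2 := (WithLp.fstL 2 ℝ L2 L2) ∘L (WithLp.fstL 2 ℝ (WithLp 2 (L2 × L2)) ℝ)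

/-- second control -/
def p2 : HH →L[ℝ] L2 := (WithLp.sndL 2 ℝ L2 L2) ∘L (WithLp.fstL 2 ℝ (WithLp 2 (L2 × L2)) ℝ)

/-- the real coordinate -/
def p3 : HH →L[ℝ] ℝ := WithLp.sndL 2 ℝ (WithLp 2 (L2 × L2)) ℝ

/-- the point with given coordinates -/
def mk (ξ η : L2) (t : ℝ) : HH := WithLp.toLp 2 (WithLp.toLp 2 (ξ, η), t)

@[simp] theorem p1_mk (ξ η : L2) (t : ℝ) : p1 (mk ξ η t) = ξ := rfl
@[simp] theorem p2_mk (ξ η : L2) (t : ℝ) : p2 (mk ξ η t) = η := rfl
@[simp] theorem p3_mk (ξ η : L2) (t : ℝ) : p3 (mk ξ η t) = t := rfl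

theorem inner_HH (x y : HH) :
    inner ℝ x y = inner ℝ (p1 x) (p1 y) + inner ℝ (p2 x) (p2 y) + p3 x * p3 y := by
  rw [WithLp.prod_inner_apply, WithLp.prod_inner_apply]
  have h : (inner ℝ x.ofLp.2 y.ofLp.2 : ℝ) = p3 x * p3 y := by
    rw [real_inner_comm]
    rfl
  rw [h]
  rfl

/-! ### Rotations -/

/-- `Im (e⁻¹ k e)` -/
def rt (e : ℍ) (k : V3) : V3 := re3 (star e * im3 k * e)

theorem im3_rt {e : ℍ} (he : ‖e‖ ^ 2 = 1) (k : V3) : im3 (rt e k) = star e * im3 k * e := by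
  unfold rt
  apply im3_re3
  rw [re_comm, ← mul_assoc, self_mul_star' he, one_mul]
  rfl

theorem rt_inner {e : ℍ} (he : ‖e‖ ^ 2 = 1) (k v : V3) :
    inner ℝ (rt e k) v = inner ℝ k (rt (star e) v) := by
  have he' : ‖star e‖ ^ 2 = 1 := by rw [norm_star, he]
  rw [← inner_im3, ← inner_im3, im3_rt he, im3_rt he', star_star, inner_mul_right',
    inner_mul_left', star_star, mul_assoc]

theorem rt_rt {e : ℍ} (he : ‖e‖ ^ 2 = 1) (v : V3) : rt e (rt (star e) v) = v := by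
  have he' : ‖star e‖ ^ 2 = 1 := by rw [norm_star, he]
  have h1 : im3 (rt e (rt (star e) v)) = im3 v := by
    rw [im3_rt he, im3_rt he', star_star]
    calc star e * (e * im3 v * star e) * e = (star e * e) * im3 v * (star e * e) := by
          simp only [mul_assoc]
      _ = im3 v := by rw [star_mul_self' he, one_mul, mul_one]
  rw [← re3_im3 (rt e (rt (star e) v)), h1, re3_im3]

/-- `w` is the adjoint of the isometry `B`. -/
structure Co (w : L2 → V3) (B : V3 → L2) : Prop where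
  adj : ∀ η v, inner ℝ (w η) v = inner ℝ η (B v)
  iso : ∀ v, w (B v) = v

theorem Co.sub {w : L2 → V3} {B : V3 → L2} (h : Co w B) (η ζ : L2) : w (η - ζ) = w η - w ζ := by
  apply ext_inner_right ℝ
  intro v
  rw [inner_sub_left, h.adj, h.adj, h.adj, inner_sub_left]

theorem co_kk (ξ : L2) {e : ℍ} (he : ‖e‖ ^ 2 = 1) :
    Co (fun η => rt e (kk ξ η)) (fun v => AvL ξ (rt (star e) v)) where
  adj η v := by rw [rt_inner he, kk_inner, AvL_apply]
  iso v := by
    have h1 : kk ξ (AvL ξ (rt (star e) v)) = rt (star e) v := by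
      apply ext_inner_right ℝ
      intro w
      rw [kk_inner, ← AvL_apply, LinearIsometry.inner_map_map]
    show rt e (kk ξ (AvL ξ (rt (star e) v))) = v
    rw [h1, rt_rt he]

/-- the vector `i` -/
def e0 : V3 := EuclideanSpace.single 0 1

theorem e0_norm : ‖e0‖ = 1 := by simp [e0]

theorem inner_e0 (v : V3) : inner ℝ v e0 = v 0 := by
  unfold e0
  rw [EuclideanSpace.inner_single_right]
  simp

theorem QF_im3 (a b : ℝ) (u v : V3) :
    QF a b (im3 u, im3 v) = ‖u‖ ^ 2 + ‖v‖ ^ 2 - (a * u 0 + b * v 0) ^ 2 / (1 + a ^ 2 + b ^ 2) := by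
  unfold QF
  rw [norm_im3, norm_im3]
  rfl

theorem submersion_algebra {w₁ w₂ : L2 → V3} {B₁ B₂ : V3 → L2} (h₁ : Co w₁ B₁) (h₂ : Co w₂ B₂)
    (a b : ℝ) (z : HH)
    (hz : ∀ y : HH, w₁ (p1 y) - (a * p3 y) • e0 = 0 → w₂ (p2 y) - (b * p3 y) • e0 = 0 →
      inner ℝ z y = 0) :
    QF a b (im3 (w₁ (p1 z) - (a * p3 z) • e0), im3 (w₂ (p2 z) - (b * p3 z) • e0)) = ‖z‖ ^ 2 := by
  set u := w₁ (p1 z) with hu
  set v := w₂ (p2 z) with hv
  set t := p3 z with ht
  -- `z` is in the image of the adjoint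
  have h1 : inner ℝ z (z - mk (B₁ u) (B₂ v) t) = 0 := by
    apply hz
    · rw [map_sub, map_sub, p1_mk, p3_mk, h₁.sub, h₁.iso, ← ht, ← hu]
      simp
    · rw [map_sub, map_sub, p2_mk, p3_mk, h₂.sub, h₂.iso, ← ht, ← hv]
      simp
  have h2 : inner ℝ z (mk (B₁ u) (B₂ v) t) = ‖u‖ ^ 2 + ‖v‖ ^ 2 + t ^ 2 := by
    rw [inner_HH, p1_mk, p2_mk, p3_mk, ← h₁.adj, ← h₂.adj, ← hu, ← hv, ← ht,
      real_inner_self_eq_norm_sq, real_inner_self_eq_norm_sq, sq t]
  have h3 : ‖z‖ ^ 2 = ‖u‖ ^ 2 + ‖v‖ ^ 2 + t ^ 2 := by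
    rw [inner_sub_right, h2, real_inner_self_eq_norm_sq] at h1
    linarith
  -- `z` is orthogonal to the line
  have h4 : inner ℝ z (mk (B₁ (a • e0)) (B₂ (b • e0)) 1) = 0 := by
    apply hz
    · rw [p1_mk, p3_mk, h₁.iso, mul_one, sub_self]
    · rw [p2_mk, p3_mk, h₂.iso, mul_one, sub_self]
  rw [inner_HH, p1_mk, p2_mk, p3_mk, ← h₁.adj, ← h₂.adj, ← hu, ← hv, ← ht, inner_smul_right,
    inner_smul_right, inner_e0, inner_e0, mul_one] at h4
  have h5 : t = -(a * u 0 + b * v 0) := by linarith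
  rw [QF_im3, h3]
  have h6 : ∀ (c : ℝ) (x : V3), ‖x - (c * t) • e0‖ ^ 2 = ‖x‖ ^ 2 - 2 * (c * t) * x 0 + (c * t) ^ 2 := by
    intro c x
    rw [@norm_sub_sq_real, inner_smul_right, inner_e0, norm_smul, e0_norm, mul_one, Real.norm_eq_abs,
      sq_abs]
    ring
  have h7 : ∀ (c : ℝ) (x : V3), (x - (c * t) • e0) 0 = x 0 - c * t := by
    intro c x
    have : e0 0 = 1 := by simp [e0]
    show x 0 - (c * t) * e0 0 = _
    rw [this, mul_one]
  rw [h6, h6, h7, h7]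
  have h8 : a * (u 0 - a * t) + b * (v 0 - b * t) = -(1 + a ^ 2 + b ^ 2) * t := by
    have : a * u 0 + b * v 0 = -t := by linarith
    linear_combination this
  have hpos : (1 + a ^ 2 + b ^ 2 : ℝ) ≠ 0 := by positivity
  rw [h8]
  have h9 : (-(1 + a ^ 2 + b ^ 2) * t) ^ 2 / (1 + a ^ 2 + b ^ 2) = (1 + a ^ 2 + b ^ 2) * t ^ 2 := by
    field_simp
  rw [h9]
  have h10 : a * u 0 + b * v 0 = -t := by linarith
  linear_combination (-2 * t) * h10

/-! ### The submersion -/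

theorem ex_star (u : V3) (t : ℝ) : star (ex u t) = ex u (-t) := by
  unfold ex
  rw [star_add, Quaternion.star_coe, Real.cos_neg, Real.sin_neg, neg_smul]
  congr 1
  have : star (Real.sin t • im3 u) = Real.sin t • star (im3 u) := stL.map_smul _ _
  rw [this, star_im3, smul_neg]

/-- One component of the submersion. -/
def comp (a : ℝ) (P : HH →L[ℝ] L2) (x : HH) : ℍ := en (P x) * ex e0 (-(a * p3 x))

theorem ex_contDiff (u : V3) : ContDiff ℝ ∞ (ex u) := by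
  have h2 : ex u = fun t : ℝ => Real.cos t • (1 : ℍ) + Real.sin t • im3 u := by
    funext t
    unfold ex
    rw [← Quaternion.coe_one, Quaternion.smul_coe, mul_one]
  rw [h2]
  exact (Real.contDiff_cos.smul contDiff_const).add (Real.contDiff_sin.smul contDiff_const)

theorem comp_contDiff (a : ℝ) (P : HH →L[ℝ] L2) : ContDiff ℝ ∞ (comp a P) := by
  have h1 : ContDiff ℝ ∞ (fun x : HH => en (P x)) := en_contDiff.comp P.contDiff
  have h2 : ContDiff ℝ ∞ (fun x : HH => ex e0 (-(a * p3 x))) :=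
    (ex_contDiff e0).comp (contDiff_const.mul p3.contDiff).neg
  exact h1.mul h2

theorem comp_norm (a : ℝ) (P : HH →L[ℝ] L2) (x : HH) : ‖comp a P x‖ = 1 := by
  unfold comp
  rw [norm_mul, en_norm, norm_of_sq (ex_norm_sq e0_norm _), one_mul]

theorem comp_hasFDerivAt (a : ℝ) (P : HH →L[ℝ] L2) (x : HH) :
    ∃ D : HH →L[ℝ] ℍ, HasFDerivAt (comp a P) D x ∧ ∀ z, D z = comp a P x *
      im3 (rt (ex e0 (-(a * p3 x))) (kk (P x) (P z)) - (a * p3 z) • e0) := by
  obtain ⟨D₁, h1, h2⟩ := en_hasFDerivAt (P x)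
  have h3 : HasFDerivAt (fun x : HH => en (P x)) (D₁ ∘L P) x := h1.comp x P.hasFDerivAt
  have h4 : HasFDerivAt (fun x : HH => -(a * p3 x)) (-(a • p3)) x :=
    (p3.hasFDerivAt.const_mul a).neg
  have h5 := (ex_hasDerivAt e0_norm (-(a * p3 x))).hasFDerivAt.comp x h4
  have h6 := h3.mul' h5
  refine ⟨_, h6, ?_⟩
  intro z
  set e := ex e0 (-(a * p3 x)) with he
  have hen : ‖e‖ ^ 2 = 1 := ex_norm_sq e0_norm _
  have h7 : im3 (rt e (kk (P x) (P z)) - (a * p3 z) • e0) =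
      star e * im3 (kk (P x) (P z)) * e - (a * p3 z) • im3 e0 := by
    have := im3_rt hen (kk (P x) (P z))
    rw [← this, sub_eq_add_neg, im3_add, ← neg_smul, im3_smul, neg_smul, ← sub_eq_add_neg]
  rw [h7]
  have h8 : comp a P x = en (P x) * e := rfl
  have h9 : e * (star e * im3 (kk (P x) (P z)) * e) = im3 (kk (P x) (P z)) * e := by
    rw [← mul_assoc, ← mul_assoc, self_mul_star' hen, one_mul]
  have h10 : D₁ (P z) * e = en (P x) * im3 (kk (P x) (P z)) * e := by rw [h2]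
  rw [h8, mul_sub, mul_assoc (en (P x)) e, h9, mul_smul_comm, mul_smul, ← mul_assoc (en (P x)) _ e, ← h10]
  simp only [add_apply, smul_apply,
    ContinuousLinearMap.comp_apply, ContinuousLinearMap.toSpanSingleton_apply,
    neg_apply, smul_eq_mul, MulOpposite.smul_eq_mul_unop,
    MulOpposite.unop_op]
  have h11 : (ex e0 ∘ fun x => -(a * p3 x)) x = e := rfl
  rw [h11, mul_smul_comm, neg_smul, mul_smul, ← mul_assoc, neg_add_eq_sub]

/-! ### The pair -/

/-- The submersion. -/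
def ff (a b : ℝ) (x : HH) : ℍ × ℍ := (comp a p1 x, comp b p2 x)

theorem ff_hasFDerivAt (a b : ℝ) (x : HH) :
    ∃ D : HH →L[ℝ] ℍ × ℍ, HasFDerivAt (ff a b) D x ∧ ∀ z, D z =
      (comp a p1 x * im3 (rt (ex e0 (-(a * p3 x))) (kk (p1 x) (p1 z)) - (a * p3 z) • e0),
       comp b p2 x * im3 (rt (ex e0 (-(b * p3 x))) (kk (p2 x) (p2 z)) - (b * p3 z) • e0)) := by
  obtain ⟨D₁, h1, h2⟩ := comp_hasFDerivAt a p1 x
  obtain ⟨D₂, h3, h4⟩ := comp_hasFDerivAt b p2 x
  refine ⟨D₁.prod D₂, h1.prodMk h3, ?_⟩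
  intro z
  rw [ContinuousLinearMap.prod_apply, h2, h4]

theorem norm_one_sq {q : ℍ} (h : ‖q‖ = 1) : ‖q‖ ^ 2 = 1 := by rw [h, one_pow]

theorem mul_im3_eq_zero {q : ℍ} (h : ‖q‖ = 1) {u : V3} : q * im3 u = 0 ↔ u = 0 := by
  constructor
  · intro h1
    have h2 : ‖q * im3 u‖ = 0 := by rw [h1, norm_zero]
    rw [norm_mul, h, one_mul, norm_im3] at h2
    exact norm_eq_zero.1 h2
  · rintro rfl
    have : im3 0 = 0 := by
      have := norm_im3 0
      rw [norm_zero] at this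
      exact norm_eq_zero.1 this
    rw [this, mul_zero]

theorem inner_self_mul_im3 {q : ℍ} (h : ‖q‖ = 1) (u : V3) : inner ℝ q (q * im3 u) = 0 := by
  rw [real_inner_comm, inner_mul_left', star_mul_self' (norm_one_sq h), Quaternion.inner_def,
    star_one, mul_one]
  rfl

theorem exists_im3 {q v : ℍ} (h : ‖q‖ = 1) (hv : inner ℝ q v = 0) : ∃ u, q * im3 u = v := by
  refine ⟨re3 (star q * v), ?_⟩
  rw [im3_re3, ← mul_assoc, self_mul_star' (norm_one_sq h), one_mul]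
  rw [re_comm]
  rw [Quaternion.inner_def] at hv
  have h2 : star (q * star v) = v * star q := by rw [star_mul, star_star]
  have h3 : (v * star q).re = (q * star v).re := by rw [← h2, Quaternion.re_star]
  exact h3.trans hv

theorem isRiemannianSubmersion_ff (a b : ℝ) : IsRiemannianSubmersion (QF a b) (ff a b) where
  smooth := (comp_contDiff a p1).prodMk (comp_contDiff b p2)
  maps x := ⟨comp_norm a p1 x, comp_norm b p2 x⟩
  surj q hq := by
    obtain ⟨ξ, hξ⟩ := en_surj q.1 hq.1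
    obtain ⟨η, hη⟩ := en_surj q.2 hq.2
    refine ⟨mk ξ η 0, ?_⟩
    unfold ff comp
    rw [p1_mk, p2_mk, p3_mk, mul_zero, mul_zero, neg_zero, ex_zero, mul_one, mul_one, hξ, hη]
  tangent x z := by
    obtain ⟨D, h1, h2⟩ := ff_hasFDerivAt a b x
    rw [h1.fderiv, h2]
    exact ⟨inner_self_mul_im3 (comp_norm a p1 x) _, inner_self_mul_im3 (comp_norm b p2 x) _⟩
  surj_fderiv x v hv₁ hv₂ := by
    obtain ⟨D, h1, h2⟩ := ff_hasFDerivAt a b x
    obtain ⟨u₁, hu₁⟩ := exists_im3 (comp_norm a p1 x) hv₁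
    obtain ⟨u₂, hu₂⟩ := exists_im3 (comp_norm b p2 x) hv₂
    have hc₁ := co_kk (p1 x) (e := ex e0 (-(a * p3 x))) (ex_norm_sq e0_norm _)
    have hc₂ := co_kk (p2 x) (e := ex e0 (-(b * p3 x))) (ex_norm_sq e0_norm _)
    refine ⟨mk (AvL (p1 x) (rt (star (ex e0 (-(a * p3 x)))) u₁))
      (AvL (p2 x) (rt (star (ex e0 (-(b * p3 x)))) u₂)) 0, ?_⟩
    rw [h1.fderiv, h2, p1_mk, p2_mk, p3_mk, mul_zero, mul_zero, zero_smul, sub_zero, sub_zero]
    refine Prod.ext ?_ ?_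
    · show comp a p1 x * im3 _ = v.1
      rw [hc₁.iso u₁, hu₁]
    · show comp b p2 x * im3 _ = v.2
      rw [hc₂.iso u₂, hu₂]
  isometric x z hz := by
    obtain ⟨D, h1, h2⟩ := ff_hasFDerivAt a b x
    rw [h1.fderiv] at hz ⊢
    rw [h2]
    have hc₁ := co_kk (p1 x) (e := ex e0 (-(a * p3 x))) (ex_norm_sq e0_norm _)
    have hc₂ := co_kk (p2 x) (e := ex e0 (-(b * p3 x))) (ex_norm_sq e0_norm _)
    have h3 := submersion_algebra hc₁ hc₂ a b z (by
      intro y hy₁ hy₂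
      apply hz
      rw [h2]
      have k1 := (mul_im3_eq_zero (comp_norm a p1 x)).2 hy₁
      have k2 := (mul_im3_eq_zero (comp_norm b p2 x)).2 hy₂
      rw [Prod.mk_eq_zero]
      exact ⟨k1, k2⟩)
    rw [← h3]
    congr 1
    have k1 : ∀ (q w : ℍ), ‖q‖ = 1 → star q * (q * w) = w := by
      intro q w hq
      rw [← mul_assoc, star_mul_self' (norm_one_sq hq), one_mul]
    exact Prod.ext (k1 _ _ (comp_norm a p1 x)) (k1 _ _ (comp_norm b p2 x))

end Pool.Agent.Y503.HS
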