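import Pool.Agent.Y503.HS.Sol

/-!
# The derivative of the endpoint map of the control system `c' = c ξ`
-/

open scoped Quaternion ENNReal Topology BoundedContinuousFunction Interval ContDiff
open Set MeasureTheory

noncomputable section

namespace Pool.Agent.Y503.HS

theorem re_comm (a b : ℍ) : (a * b).re = (b * a).re := by
  simp only [Quaternion.re_mul]
  ring

theorem inner_mul_right' (a b c : ℍ) : inner ℝ (a * b) c = inner ℝ a (c * star b) := by
  rw [Quaternion.inner_def, Quaternion.inner_def, star_mul, star_star, mul_assoc]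

theorem inner_mul_left' (a b c : ℍ) : inner ℝ (a * b) c = inner ℝ b (star a * c) := by
  rw [Quaternion.inner_def, Quaternion.inner_def, star_mul, star_star, mul_assoc, re_comm, mul_assoc]

theorem star_mul_self' {c : ℍ} (h : ‖c‖ ^ 2 = 1) : star c * c = 1 := by
  rw [Quaternion.star_mul_self, Quaternion.normSq_eq_norm_mul_self, ← sq, h, Quaternion.coe_one]

theorem self_mul_star' {c : ℍ} (h : ‖c‖ ^ 2 = 1) : c * star c = 1 := by
  rw [Quaternion.self_mul_star, Quaternion.normSq_eq_norm_mul_self, ← sq, h, Quaternion.coe_one]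

theorem star_im3 (v : V3) : star (im3 v) = -im3 v := by
  ext <;> simp [im3]

theorem re3_im3 (v : V3) : re3 (im3 v) = v := by
  ext i
  fin_cases i <;> rfl

theorem im3_re3 {q : ℍ} (h : q.re = 0) : im3 (re3 q) = q :=
  Quaternion.ext _ _ h.symm rfl rfl rfl

theorem inner_im3 (v w : V3) : inner ℝ (im3 v) (im3 w) = inner ℝ v w := io.inner_map_map v w

theorem inner_im3_left (v : V3) (q : ℍ) : inner ℝ (im3 v) q = inner ℝ v (re3 q) := by
  have h1 : inner ℝ v (re3 q) = v 0 * q.imI + v 1 * q.imJ + v 2 * q.imK := by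
    rw [PiLp.inner_apply, Fin.sum_univ_three]
    simp only [RCLike.inner_apply, conj_trivial]
    show q.imI * v 0 + q.imJ * v 1 + q.imK * v 2 = _
    ring
  have h2 : inner ℝ (im3 v) q =
      (im3 v).re * q.re + (im3 v).imI * q.imI + (im3 v).imJ * q.imJ + (im3 v).imK * q.imK := by
    rw [Quaternion.inner_def]
    simp
  rw [h1, h2]
  show 0 * q.re + v 0 * q.imI + v 1 * q.imJ + v 2 * q.imK = _
  ring

/-- The conjugation, as a linear map. -/
def stL : ℍ →L[ℝ] ℍ :=
  LinearMap.toContinuousLinearMap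
    { toFun := star
      map_add' := star_add
      map_smul' := fun a b => by
        ext <;> simp }

theorem hasDerivAt_star {f : ℝ → ℍ} {f' : ℍ} {t : ℝ} (h : HasDerivAt f f' t) :
    HasDerivAt (fun t => star (f t)) (star f') t :=
  (stL.hasFDerivAt (x := f t)).comp_hasDerivAt t h

/-- The imaginary part, as a linear map. -/
def reL : ℍ →L[ℝ] V3 :=
  LinearMap.toContinuousLinearMap
    { toFun := re3
      map_add' := fun a b => by
        ext i
        fin_cases i <;> rfl
      map_smul' := fun a b => by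
        ext i
        fin_cases i <;> rfl }

@[simp] theorem reL_apply (q : ℍ) : reL q = re3 q := rfl

/-- Constant functions. -/
def cst : ℍ →L[ℝ] X :=
  LinearMap.mkContinuous
    { toFun := fun q => BoundedContinuousFunction.const ℝ q
      map_add' := fun _ _ => rfl
      map_smul' := fun _ _ => rfl } 1 (fun q => by
        rw [one_mul]
        exact (BoundedContinuousFunction.norm_le (norm_nonneg _)).2 fun _ => le_rfl)

@[simp] theorem cst_apply (q : ℍ) (t : ℝ) : cst q t = q := rfl

/-- The function `s ↦ Im (c(s)⁻¹ q c(s))`. -/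
def av (c : X) (q : ℍ) : ℝ →ᵇ V3 := reL.compLeftContinuousBounded ℝ (star c * cst q * c)

theorem av_apply (c : X) (q : ℍ) (t : ℝ) : av c q t = re3 (star (c t) * q * c t) := rfl

theorem av_add (c : X) (q r : ℍ) : av c (q + r) = av c q + av c r := by
  unfold av
  rw [map_add, mul_add, add_mul, map_add]

theorem av_smul (c : X) (a : ℝ) (q : ℍ) : av c (a • q) = a • av c q := by
  unfold av
  rw [map_smul, mul_smul_comm, smul_mul_assoc, map_smul]

theorem av_cont : Continuous fun p : X × ℍ => av p.1 p.2 := by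
  unfold av
  refine (reL.compLeftContinuousBounded ℝ).continuous.comp ?_
  exact ((continuous_star.comp continuous_fst).mul (cst.continuous.comp continuous_snd)).mul
    continuous_fst

/-- The derivative of the endpoint. -/
def Dd (ξ η : L2) : ℍ := R ξ (T η (sol ξ)) 1

theorem der_cc (g h : ℝ →ᵇ V3) :
    Dd (cc g) (cc h) = (∫ s in (0 : ℝ)..1, sol (cc g) s * im3 (h s) * star (sol (cc g) s)) *
      sol (cc g) 1 := by
  set c := sol (cc g) with hc
  set D := R (cc g) (T (cc h) c) with hD
  obtain ⟨Cx, h1, h2, h3⟩ := exists_deriv g 0 1 c 0 (fun t => by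
    rw [hc]
    conv_lhs => rw [sol_eq]
    simp)
  obtain ⟨Dx, k1, k2, k3⟩ := exists_deriv g h 0 D c (fun t => by
    rw [zero_add, hD]
    conv_lhs => rw [R_eq]
    rw [BoundedContinuousFunction.add_apply, add_comm])
  have hcn : ∀ t ∈ Icc (0 : ℝ) 1, ‖c t‖ ^ 2 = 1 := sol_norm_sq (cc g)
  have hder : ∀ t, HasDerivAt (fun t => Dx t * star (Cx t))
      ((D t * im3 (g t) + c t * im3 (h t)) * star (Cx t) +
        Dx t * star (c t * im3 (g t) + (0 : X) t * im3 ((0 : ℝ →ᵇ V3) t))) t :=
    fun t => (k3 t).mul (hasDerivAt_star (h3 t))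
  have hCc : Continuous Cx := continuous_iff_continuousAt.2 fun t => (h3 t).continuousAt
  have hDc : Continuous Dx := continuous_iff_continuousAt.2 fun t => (k3 t).continuousAt
  have hint := intervalIntegral.integral_eq_sub_of_hasDerivAt (a := 0) (b := 1)
    (fun t _ => hder t) (by
      apply Continuous.intervalIntegrable
      exact (((cg_cont g D).add (cg_cont h c)).mul (continuous_star.comp hCc)).add
        (hDc.mul (continuous_star.comp ((cg_cont g c).add (cg_cont 0 0)))))
  have h01 : (1 : ℝ) ∈ Icc (0 : ℝ) 1 := ⟨zero_le_one, le_rfl⟩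
  rw [k1 1 h01, h1 1 h01, k2, zero_mul, sub_zero] at hint
  have hcongr : ∫ s in (0 : ℝ)..1, ((D s * im3 (g s) + c s * im3 (h s)) * star (Cx s) +
        Dx s * star (c s * im3 (g s) + (0 : X) s * im3 ((0 : ℝ →ᵇ V3) s))) =
      ∫ s in (0 : ℝ)..1, c s * im3 (h s) * star (c s) := by
    apply intervalIntegral.integral_congr
    intro s hs
    rw [uIcc_of_le zero_le_one] at hs
    show (D s * im3 (g s) + c s * im3 (h s)) * star (Cx s) +
        Dx s * star (c s * im3 (g s) + (0 : X) s * im3 ((0 : ℝ →ᵇ V3) s)) =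
        c s * im3 (h s) * star (c s)
    rw [h1 s hs, k1 s hs, BoundedContinuousFunction.coe_zero, Pi.zero_apply, zero_mul, add_zero,
      star_mul, star_im3]
    noncomm_ring
  rw [hcongr] at hint
  show D 1 = _
  rw [hint, mul_assoc, star_mul_self' (hcn 1 h01), mul_one]

/-- The vector `c(1) v c(1)⁻¹`. -/
def qv (ξ : L2) (v : V3) : ℍ := sol ξ 1 * im3 v * star (sol ξ 1)

theorem qv_def (ξ : L2) (v : V3) : qv ξ v = sol ξ 1 * im3 v * star (sol ξ 1) := rfl

/-- The adjoint of the derivative. -/
def Av (ξ : L2) (v : V3) : L2 := cc (av (sol ξ) (qv ξ v))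

theorem sol1_cont : Continuous fun ξ : L2 => sol ξ 1 :=
  (BoundedContinuousFunction.evalCLM ℝ (1 : ℝ)).continuous.comp contDiff_sol.continuous

theorem cc_cont : Continuous (fun g : ℝ →ᵇ V3 => cc g) :=
  (BoundedContinuousFunction.toLp (E := V3) 2 mu ℝ).continuous

theorem qv_cont (v : V3) : Continuous fun ξ : L2 => qv ξ v := by
  unfold qv
  exact (sol1_cont.mul continuous_const).mul (continuous_star.comp sol1_cont)

attribute [local irreducible] av sol R T qv

theorem pair_cont (v : V3) : Continuous fun ξ : L2 => (sol ξ, qv ξ v) :=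
  contDiff_sol.continuous.prodMk (qv_cont v)

theorem av_cont' (v : V3) : Continuous fun ξ : L2 => av (sol ξ) (qv ξ v) :=
  av_cont.comp (pair_cont v)

theorem Av_cont (v : V3) : Continuous fun ξ : L2 => Av ξ v := by
  unfold Av
  exact cc_cont.comp (av_cont' v)

theorem Dd_cont : Continuous fun p : L2 × L2 => Dd p.1 p.2 := by
  have h1 : Continuous fun p : L2 × L2 => R p.1 := R_clm_cont.comp continuous_fst
  have h2 : Continuous fun p : L2 × L2 => T p.2 := T.continuous.comp continuous_snd
  have h3 : Continuous fun p : L2 × L2 => sol p.1 := contDiff_sol.continuous.comp continuous_fst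
  exact (BoundedContinuousFunction.evalCLM ℝ (1 : ℝ)).continuous.comp
    (h1.clm_apply (h2.clm_apply h3))

theorem cc_inner (f g : ℝ →ᵇ V3) :
    inner ℝ (cc f) (cc g) = ∫ s in (0 : ℝ)..1, inner ℝ (f s) (g s) := by
  rw [L2.inner_def, intervalIntegral.integral_of_le zero_le_one]
  apply integral_congr_ae
  filter_upwards [BoundedContinuousFunction.coeFn_toLp mu (p := 2) ℝ f,
    BoundedContinuousFunction.coeFn_toLp mu (p := 2) ℝ g] with s hs ht
  rw [hs, ht]

theorem Dd_inner_cc (g h : ℝ →ᵇ V3) (q : ℍ) :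
    inner ℝ (Dd (cc g) (cc h)) (q * sol (cc g) 1) = ∫ s in (0 : ℝ)..1,
      inner ℝ (h s) (av (sol (cc g)) q s) := by
  rw [der_cc]
  set c := sol (cc g) with hc
  have h01 : (1 : ℝ) ∈ Icc (0 : ℝ) 1 := ⟨zero_le_one, le_rfl⟩
  rw [inner_mul_right', mul_assoc, self_mul_star' (sol_norm_sq (cc g) 1 h01), mul_one,
    real_inner_comm]
  have hcont : Continuous fun s => c s * im3 (h s) * star (c s) :=
    (cg_cont h c).mul (continuous_star.comp c.continuous)
  rw [intervalIntegral.integral_of_le zero_le_one, intervalIntegral.integral_of_le zero_le_one,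
    ← integral_inner (hcont.integrableOn_Ioc)]
  apply integral_congr_ae
  apply Filter.Eventually.of_forall
  intro s
  show inner ℝ q (c s * im3 (h s) * star (c s)) = inner ℝ (h s) (av c q s)
  rw [real_inner_comm, inner_mul_right', star_star, inner_mul_left', inner_im3_left, av_apply,
    mul_assoc]

theorem Dd_inner (ξ η : L2) (v : V3) :
    inner ℝ (Dd ξ η) (sol ξ 1 * im3 v) = inner ℝ η (Av ξ v) := by
  refine cc_dense.induction_on₂
    (p := fun ξ η : L2 => inner ℝ (Dd ξ η) (sol ξ 1 * im3 v) = inner ℝ η (Av ξ v)) ?_ ?_ ξ η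
  · apply isClosed_eq
    · exact Dd_cont.inner ((sol1_cont.comp continuous_fst).mul continuous_const)
    · exact continuous_snd.inner ((Av_cont v).comp continuous_fst)
  · intro g h
    have h01 : (1 : ℝ) ∈ Icc (0 : ℝ) 1 := ⟨zero_le_one, le_rfl⟩
    have h1 := Dd_inner_cc g h (qv (cc g) v)
    have h2 : qv (cc g) v * sol (cc g) 1 = sol (cc g) 1 * im3 v := by
      rw [qv_def, mul_assoc, star_mul_self' (sol_norm_sq (cc g) 1 h01), mul_one]
    rw [h2] at h1
    rw [h1]
    unfold Av
    rw [cc_inner]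

theorem Dd_inner_one (ξ η : L2) : inner ℝ (Dd ξ η) (sol ξ 1) = 0 := by
  refine cc_dense.induction_on₂
    (p := fun ξ η : L2 => inner ℝ (Dd ξ η) (sol ξ 1) = 0) ?_ ?_ ξ η
  · apply isClosed_eq
    · exact Dd_cont.inner (sol1_cont.comp continuous_fst)
    · exact continuous_const
  · intro g h
    have h1 := Dd_inner_cc g h 1
    rw [one_mul] at h1
    rw [h1]
    have h2 : ∫ s in (0 : ℝ)..1, inner ℝ (h s) (av (sol (cc g)) 1 s) = ∫ s in (0 : ℝ)..1, (0 : ℝ) := by
      apply intervalIntegral.integral_congr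
      intro s hs
      rw [uIcc_of_le zero_le_one] at hs
      show inner ℝ (h s) (av (sol (cc g)) 1 s) = 0
      rw [av_apply, mul_one, star_mul_self' (sol_norm_sq (cc g) s hs)]
      have : re3 1 = 0 := by
        ext i
        fin_cases i <;> rfl
      rw [this, inner_zero_right]
    rw [h2]
    simp

/-- The derivative of the endpoint, moved to the Lie algebra. -/
def kk (ξ η : L2) : V3 := re3 (star (sol ξ 1) * Dd ξ η)

theorem Dd_eq (ξ η : L2) : Dd ξ η = sol ξ 1 * im3 (kk ξ η) := by
  have h01 : (1 : ℝ) ∈ Icc (0 : ℝ) 1 := ⟨zero_le_one, le_rfl⟩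
  unfold kk
  rw [im3_re3]
  · rw [← mul_assoc, self_mul_star' (sol_norm_sq ξ 1 h01), one_mul]
  · have h1 := Dd_inner_one ξ η
    rw [Quaternion.inner_def] at h1
    rw [re_comm]
    exact h1

theorem kk_inner (ξ η : L2) (v : V3) : inner ℝ (kk ξ η) v = inner ℝ η (Av ξ v) := by
  have h01 : (1 : ℝ) ∈ Icc (0 : ℝ) 1 := ⟨zero_le_one, le_rfl⟩
  rw [← Dd_inner ξ η v, Dd_eq, inner_mul_left', ← mul_assoc, star_mul_self' (sol_norm_sq ξ 1 h01),
    one_mul, inner_im3]

end Pool.Agent.Y503.HS
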