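import Pool.Agent.Y503.HS.Vol

/-!
# The operator `1 - T ξ` is invertible
-/

open scoped Quaternion ENNReal Topology BoundedContinuousFunction Interval
open Set MeasureTheory

noncomputable section

namespace Pool.Agent.Y503.HS

/-- projection to `[0,1]` -/
def cl (t : ℝ) : ℝ := max 0 (min t 1)

theorem cl_cont : Continuous cl := by
  unfold cl
  fun_prop

theorem cl_nonneg (t : ℝ) : 0 ≤ cl t := le_max_left _ _

theorem cl_le (t : ℝ) : cl t ≤ 1 := max_le zero_le_one (min_le_right _ _)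

theorem cl_of_mem {t : ℝ} (h0 : 0 ≤ t) (h1 : t ≤ 1) : cl t = t := by
  unfold cl
  rw [min_eq_left h1, max_eq_right h0]

/-- exponential weight -/
def W (l : ℝ) : X :=
  BoundedContinuousFunction.ofNormedAddCommGroup (fun t => ((Real.exp (l * cl t) : ℝ) : ℍ))
    (Quaternion.continuous_coe.comp (by
      have := cl_cont
      fun_prop)) (Real.exp |l|) (fun t => by
      rw [Quaternion.norm_coe, Real.norm_eq_abs, abs_of_pos (Real.exp_pos _)]
      apply Real.exp_le_exp.2
      have h1 := cl_nonneg t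
      have h2 := cl_le t
      have h3 := le_abs_self l
      have h4 := abs_nonneg l
      nlinarith)

@[simp] theorem W_apply (l t : ℝ) : W l t = ((Real.exp (l * cl t) : ℝ) : ℍ) := rfl

theorem W_mul (l : ℝ) : W l * W (-l) = 1 := by
  ext1 t
  rw [BoundedContinuousFunction.mul_apply, W_apply, W_apply, ← Quaternion.coe_mul, ← Real.exp_add]
  simp

theorem int_exp (l b : ℝ) (hl : 0 < l) (hb : 0 ≤ b) :
    ∫ s in (0 : ℝ)..b, Real.exp (-(2 * l) * (b - s)) ≤ 1 / (2 * l) := by
  have h1 : ∀ s ∈ uIcc 0 b, HasDerivAt (fun s => Real.exp (-(2 * l) * (b - s)) / (2 * l))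
      (Real.exp (-(2 * l) * (b - s))) s := by
    intro s _
    have h2 : HasDerivAt (fun s => -(2 * l) * (b - s)) (-(2 * l) * (0 - 1)) s :=
      ((hasDerivAt_const s b).sub (hasDerivAt_id s)).const_mul _
    have h3 := (h2.exp).div_const (2 * l)
    have h4 : Real.exp (-(2 * l) * (b - s)) * (-(2 * l) * (0 - 1)) / (2 * l) =
        Real.exp (-(2 * l) * (b - s)) := by
      rw [div_eq_iff (by positivity)]
      ring
    rwa [h4] at h3
  rw [intervalIntegral.integral_eq_sub_of_hasDerivAt h1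
    (by apply Continuous.intervalIntegrable; fun_prop)]
  have h4 : Real.exp (-(2 * l) * (b - b)) = 1 := by simp
  have h5 : 0 < Real.exp (-(2 * l) * (b - 0)) := Real.exp_pos _
  rw [h4]
  have : 0 < Real.exp (-(2 * l) * (b - 0)) / (2 * l) := by positivity
  linarith

theorem int_weight (l t : ℝ) (hl : 0 < l) :
    ∫ s in Ι 0 t, Real.exp (-(2 * l) * (cl t - cl s)) ∂mu ≤ 1 / (2 * l) := by
  rw [Measure.restrict_restrict measurableSet_uIoc]
  rcases le_total t 0 with ht | ht
  · have : Ι 0 t ∩ Ioc 0 1 = ∅ := by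
      rw [uIoc_of_ge ht]
      ext s
      simp only [mem_inter_iff, mem_Ioc, mem_empty_iff_false, iff_false, not_and]
      intro h1 h2
      linarith [h1.2]
    rw [this, Measure.restrict_empty, integral_zero_measure]
    positivity
  · have h1 : Ι 0 t ∩ Ioc 0 1 = Ioc 0 (cl t) := by
      rw [uIoc_of_le ht]
      have hc : cl t = min t 1 := by
        unfold cl
        exact max_eq_right (le_min ht zero_le_one)
      rw [hc, Ioc_inter_Ioc]
      simp
    rw [h1, ← intervalIntegral.integral_of_le (cl_nonneg t)]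
    refine le_trans (le_of_eq ?_) (int_exp l (cl t) hl (cl_nonneg t))
    apply intervalIntegral.integral_congr
    intro s hs
    rw [uIcc_of_le (cl_nonneg t)] at hs
    show Real.exp (-(2 * l) * (cl t - cl s)) = Real.exp (-(2 * l) * (cl t - s))
    rw [cl_of_mem hs.1 (hs.2.trans (cl_le t))]

theorem weight_cont (l t : ℝ) : Continuous fun s => Real.exp (-(2 * l) * (cl t - cl s)) := by
  have := cl_cont
  fun_prop

theorem weighted (l : ℝ) (hl : 0 < l) (ξ : L2) (c : X) (t : ℝ) (δ : ℝ) (hδ : 0 < δ) :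
    ‖W (-l) t * T ξ (W l * c) t‖ ≤ (δ / 2 * ‖ξ‖ ^ 2 + 1 / (2 * δ) * (1 / (2 * l))) * ‖c‖ := by
  rw [norm_mul, W_apply, Quaternion.norm_coe, Real.norm_eq_abs, abs_of_pos (Real.exp_pos _), T_apply]
  have h1 : Integrable (fun s => Real.exp (-(2 * l) * (cl t - cl s))) mu := by
    have h2 : Integrable (fun _ : ℝ => (1 : ℝ)) mu := integrable_const _
    have h3 := h2.bdd_mul (c := Real.exp (2 * l)) (weight_cont l t).aestronglyMeasurable (Filter.Eventually.of_forall (fun s => by
      rw [Real.norm_eq_abs, abs_of_pos (Real.exp_pos _)]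
      apply Real.exp_le_exp.2
      have h1 := cl_nonneg t
      have h2 := cl_le s
      nlinarith))
    simpa using h3
  have h2 : IntegrableOn (fun s => (δ / 2 * ‖ξ s‖ ^ 2 + 1 / (2 * δ) *
      Real.exp (-(2 * l) * (cl t - cl s))) * ‖c‖) (Ι 0 t) mu :=
    ((((L2_sq ξ).const_mul _).add (h1.const_mul _)).mul_const _).integrableOn
  calc Real.exp (-l * cl t) * ‖∫ s in (0 : ℝ)..t, (W l * c) s * im3 (ξ s) ∂mu‖
      ≤ Real.exp (-l * cl t) * ∫ s in Ι 0 t, ‖(W l * c) s * im3 (ξ s)‖ ∂mu :=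
        mul_le_mul_of_nonneg_left intervalIntegral.norm_integral_le_integral_norm_uIoc
          (Real.exp_pos _).le
    _ = ∫ s in Ι 0 t, Real.exp (-l * cl t) * ‖(W l * c) s * im3 (ξ s)‖ ∂mu :=
        (integral_const_mul _ _).symm
    _ ≤ ∫ s in Ι 0 t, (δ / 2 * ‖ξ s‖ ^ 2 + 1 / (2 * δ) *
          Real.exp (-(2 * l) * (cl t - cl s))) * ‖c‖ ∂mu := by
        apply integral_mono ((prod_integrable _ ξ).norm.integrableOn.const_mul _) h2
        intro s
        show Real.exp (-l * cl t) * ‖(W l * c) s * im3 (ξ s)‖ ≤ (δ / 2 * ‖ξ s‖ ^ 2 + 1 / (2 * δ) *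
          Real.exp (-(2 * l) * (cl t - cl s))) * ‖c‖
        rw [norm_mul, norm_im3, BoundedContinuousFunction.mul_apply, norm_mul, W_apply,
          Quaternion.norm_coe, Real.norm_eq_abs, abs_of_pos (Real.exp_pos _)]
        set e := Real.exp (-l * (cl t - cl s)) with he
        have e1 : Real.exp (-l * cl t) * Real.exp (l * cl s) = e := by
          rw [← Real.exp_add, he]
          congr 1
          ring
        have e2 : Real.exp (-(2 * l) * (cl t - cl s)) = e ^ 2 := by
          rw [he, sq, ← Real.exp_add]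
          congr 1
          ring
        have h3 : Real.exp (-l * cl t) * (Real.exp (l * cl s) * ‖c s‖ * ‖ξ s‖) = e * ‖ξ s‖ * ‖c s‖ := by
          rw [← e1]
          ring
        rw [h3, e2]
        have h4 : e * ‖ξ s‖ ≤ δ / 2 * ‖ξ s‖ ^ 2 + 1 / (2 * δ) * e ^ 2 := by
          have h5 : 0 ≤ 1 / (2 * δ) * (e - δ * ‖ξ s‖) ^ 2 := by positivity
          have h6 : 1 / (2 * δ) * (e - δ * ‖ξ s‖) ^ 2 =
              δ / 2 * ‖ξ s‖ ^ 2 + 1 / (2 * δ) * e ^ 2 - e * ‖ξ s‖ := by
            field_simp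
            ring
          linarith
        have h7 := c.norm_coe_le_norm s
        have h8 : 0 ≤ e * ‖ξ s‖ := by positivity
        exact mul_le_mul h4 h7 (norm_nonneg _) (h8.trans h4)
    _ = (δ / 2 * ∫ s in Ι 0 t, ‖ξ s‖ ^ 2 ∂mu + 1 / (2 * δ) *
          ∫ s in Ι 0 t, Real.exp (-(2 * l) * (cl t - cl s)) ∂mu) * ‖c‖ := by
        rw [integral_mul_const, integral_add ((L2_sq ξ).integrableOn.const_mul _)
          (h1.integrableOn.const_mul _), integral_const_mul, integral_const_mul]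
    _ ≤ (δ / 2 * ‖ξ‖ ^ 2 + 1 / (2 * δ) * (1 / (2 * l))) * ‖c‖ := by
        have h3 : ∫ s in Ι 0 t, ‖ξ s‖ ^ 2 ∂mu ≤ ‖ξ‖ ^ 2 := by
          rw [L2_norm_sq]
          exact setIntegral_le_integral (L2_sq ξ)
            (Filter.Eventually.of_forall fun _ => by positivity)
        have h4 := int_weight l t hl
        gcongr

/-- `1 - T ξ` is invertible. -/
theorem isUnit_one_sub (ξ : L2) : IsUnit (1 - T ξ : X →L[ℝ] X) := by
  set δ : ℝ := 1 / (2 * (‖ξ‖ ^ 2 + 1)) with hδ
  set l : ℝ := 2 / δ with hl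
  have hδ0 : 0 < δ := by positivity
  have hl0 : 0 < l := by positivity
  set M : X →L[ℝ] X := ContinuousLinearMap.mul ℝ X (W (-l)) with hM
  set N : X →L[ℝ] X := ContinuousLinearMap.mul ℝ X (W l) with hN
  have hNM : N * M = 1 := by
    ext1 c
    show W l * (W (-l) * c) = c
    rw [← mul_assoc, W_mul, one_mul]
  have hMN : M * N = 1 := by
    ext1 c
    show W (-l) * (W l * c) = c
    have := W_mul (-l)
    rw [neg_neg] at this
    rw [← mul_assoc, this, one_mul]
  set S : X →L[ℝ] X := M * T ξ * N with hS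
  have hSn : ‖S‖ ≤ 3 / 8 := by
    apply ContinuousLinearMap.opNorm_le_bound _ (by norm_num)
    intro c
    rw [BoundedContinuousFunction.norm_le (by positivity)]
    intro t
    have h1 : S c t = W (-l) t * T ξ (W l * c) t := rfl
    rw [h1]
    refine (weighted l hl0 ξ c t δ hδ0).trans ?_
    apply mul_le_mul_of_nonneg_right _ (norm_nonneg _)
    have h2 : δ * (‖ξ‖ ^ 2 + 1) = 1 / 2 := by
      rw [hδ]
      field_simp
    have h3 : 1 / (2 * δ) * (1 / (2 * l)) = 1 / 8 := by
      rw [hl]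
      field_simp
      norm_num
    rw [h3]
    nlinarith [sq_nonneg ‖ξ‖]
  have hu : IsUnit (1 - S) := ⟨Units.oneSub S (lt_of_le_of_lt hSn (by norm_num)), rfl⟩
  have hN' : IsUnit N := ⟨⟨N, M, hNM, hMN⟩, rfl⟩
  have hM' : IsUnit M := ⟨⟨M, N, hMN, hNM⟩, rfl⟩
  have heq : 1 - T ξ = N * (1 - S) * M := by
    have : N * (1 - S) * M = N * M - (N * M) * T ξ * (N * M) := by
      rw [hS, mul_sub, sub_mul, mul_one]
      simp only [mul_assoc]
    rw [this, hNM, one_mul, mul_one]
  rw [heq]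
  exact (hN'.mul hu).mul hM'

end Pool.Agent.Y503.HS
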