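import Pool.Agent.Y503.HS.Der

/-!
# The adjoint of the derivative is isometric; the endpoint map is onto
-/

open scoped Quaternion ENNReal Topology BoundedContinuousFunction Interval ContDiff
open Set MeasureTheory

noncomputable section

namespace Pool.Agent.Y503.HS

theorem norm_of_sq {c : ℍ} (h : ‖c‖ ^ 2 = 1) : ‖c‖ = 1 := by
  have := norm_nonneg c
  nlinarith

theorem qv_add (ξ : L2) (v w : V3) : qv ξ (v + w) = qv ξ v + qv ξ w := by
  rw [qv_def, qv_def, qv_def, im3_add, mul_add, add_mul]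

theorem qv_smul (ξ : L2) (a : ℝ) (v : V3) : qv ξ (a • v) = a • qv ξ v := by
  rw [qv_def, qv_def, im3_smul, mul_smul_comm, smul_mul_assoc]

theorem qv_re (ξ : L2) (v : V3) : (qv ξ v).re = 0 := by
  have h01 : (1 : ℝ) ∈ Icc (0 : ℝ) 1 := ⟨zero_le_one, le_rfl⟩
  rw [qv_def, re_comm, ← mul_assoc, star_mul_self' (sol_norm_sq ξ 1 h01), one_mul]
  rfl

theorem qv_norm (ξ : L2) (v : V3) : ‖qv ξ v‖ = ‖v‖ := by
  have h01 : (1 : ℝ) ∈ Icc (0 : ℝ) 1 := ⟨zero_le_one, le_rfl⟩
  rw [qv_def, norm_mul, norm_mul, norm_star, norm_of_sq (sol_norm_sq ξ 1 h01), one_mul, mul_one,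
    norm_im3]

theorem norm_re3 {q : ℍ} (h : q.re = 0) : ‖re3 q‖ = ‖q‖ := by
  rw [← norm_im3, im3_re3 h]

theorem av_norm (ξ : L2) (q : ℍ) (hq : q.re = 0) {s : ℝ} (hs : s ∈ Icc (0 : ℝ) 1) :
    ‖av (sol ξ) q s‖ = ‖q‖ := by
  have h1 := sol_norm_sq ξ s hs
  rw [av_apply, norm_re3, norm_mul, norm_mul, norm_star, norm_of_sq h1, one_mul, mul_one]
  rw [re_comm, ← mul_assoc, self_mul_star' h1, one_mul, hq]

theorem cc_add (f g : ℝ →ᵇ V3) : cc (f + g) = cc f + cc g :=
  (BoundedContinuousFunction.toLp (E := V3) 2 mu ℝ).map_add f g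

theorem cc_smul (a : ℝ) (f : ℝ →ᵇ V3) : cc (a • f) = a • cc f :=
  (BoundedContinuousFunction.toLp (E := V3) 2 mu ℝ).map_smul a f

/-- evaluation at `1` -/
def evL : X →L[ℝ] ℍ := BoundedContinuousFunction.evalCLM ℝ (1 : ℝ)

theorem evL_apply (c : X) : evL c = c 1 := rfl

attribute [local irreducible] av sol R T qv

/-- The adjoint of the derivative, as a linear isometry. -/
def AvL (ξ : L2) : V3 →ₗᵢ[ℝ] L2 where
  toFun := Av ξ
  map_add' v w := by
    unfold Av
    rw [qv_add, av_add, cc_add]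
  map_smul' a v := by
    unfold Av
    rw [qv_smul, av_smul, cc_smul]
    rfl
  norm_map' v := by
    show ‖Av ξ v‖ = ‖v‖
    have h1 : ‖Av ξ v‖ ^ 2 = ‖v‖ ^ 2 := by
      rw [← real_inner_self_eq_norm_sq]
      unfold Av
      rw [cc_inner]
      have h2 : ∫ s in (0 : ℝ)..1, inner ℝ (av (sol ξ) (qv ξ v) s) (av (sol ξ) (qv ξ v) s) =
          ∫ s in (0 : ℝ)..1, ‖v‖ ^ 2 := by
        apply intervalIntegral.integral_congr
        intro s hs
        rw [uIcc_of_le zero_le_one] at hs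
        show inner ℝ (av (sol ξ) (qv ξ v) s) (av (sol ξ) (qv ξ v) s) = ‖v‖ ^ 2
        rw [real_inner_self_eq_norm_sq, av_norm ξ _ (qv_re ξ v) hs, qv_norm]
      rw [h2]
      simp
    exact (sq_eq_sq₀ (norm_nonneg _) (norm_nonneg _)).1 h1

theorem AvL_apply (ξ : L2) (v : V3) : AvL ξ v = Av ξ v := rfl

theorem kk_add (ξ η ζ : L2) : kk ξ (η + ζ) = kk ξ η + kk ξ ζ := by
  apply ext_inner_right ℝ
  intro v
  rw [inner_add_left, kk_inner, kk_inner, kk_inner, inner_add_left]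

theorem kk_smul (ξ η : L2) (a : ℝ) : kk ξ (a • η) = a • kk ξ η := by
  apply ext_inner_right ℝ
  intro v
  rw [real_inner_smul_left, kk_inner, kk_inner, real_inner_smul_left]

/-- The endpoint map. -/
def en (ξ : L2) : ℍ := sol ξ 1

theorem en_norm (ξ : L2) : ‖en ξ‖ = 1 := norm_of_sq (sol_norm_sq ξ 1 ⟨zero_le_one, le_rfl⟩)

theorem en_contDiff : ContDiff ℝ ∞ en := by
  have h1 : ContDiff ℝ ∞ (fun ξ : L2 => evL (sol ξ)) := evL.contDiff.comp contDiff_sol
  exact h1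

theorem en_hasFDerivAt (ξ : L2) : ∃ D : L2 →L[ℝ] ℍ, HasFDerivAt en D ξ ∧
    ∀ η, D η = en ξ * im3 (kk ξ η) := by
  obtain ⟨D, h1, h2⟩ := hasFDerivAt_sol ξ
  have h3 : HasFDerivAt (fun ξ : L2 => evL (sol ξ)) (evL ∘L D) ξ := evL.hasFDerivAt.comp ξ h1
  refine ⟨evL ∘L D, h3, ?_⟩
  intro η
  show (D η) 1 = _
  rw [h2]
  exact Dd_eq ξ η

/-- The one parameter subgroup with velocity `u`. -/
def ex (u : V3) (t : ℝ) : ℍ := ((Real.cos t : ℝ) : ℍ) + Real.sin t • im3 u

theorem im3_sq {u : V3} (hu : ‖u‖ = 1) : im3 u * im3 u = -1 := by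
  have h1 : star (im3 u) * im3 u = 1 := star_mul_self' (by rw [norm_im3, hu, one_pow])
  rw [star_im3, neg_mul] at h1
  rw [← h1, neg_neg]

theorem ex_hasDerivAt {u : V3} (hu : ‖u‖ = 1) (t : ℝ) : HasDerivAt (ex u) (ex u t * im3 u) t := by
  have h1 : HasDerivAt (fun t : ℝ => Real.cos t • (1 : ℍ) + Real.sin t • im3 u)
      ((-Real.sin t) • (1 : ℍ) + Real.cos t • im3 u) t :=
    ((Real.hasDerivAt_cos t).smul_const _).add ((Real.hasDerivAt_sin t).smul_const _)
  have h2 : ex u = fun t : ℝ => Real.cos t • (1 : ℍ) + Real.sin t • im3 u := by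
    funext t
    unfold ex
    rw [← Quaternion.coe_one, Quaternion.smul_coe, mul_one]
  have h3 : ex u t * im3 u = (-Real.sin t) • (1 : ℍ) + Real.cos t • im3 u := by
    rw [h2]
    simp only
    rw [add_mul, smul_mul_assoc, one_mul, smul_mul_assoc, im3_sq hu, smul_neg, neg_smul, add_comm]
  rw [h3, h2]
  exact h1

theorem ex_zero (u : V3) : ex u 0 = 1 := by
  unfold ex
  simp

theorem ex_norm_sq {u : V3} (hu : ‖u‖ = 1) (t : ℝ) : ‖ex u t‖ ^ 2 = 1 := by
  have h0 : ‖u‖ ^ 2 = u 0 ^ 2 + u 1 ^ 2 + u 2 ^ 2 := by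
    rw [EuclideanSpace.norm_sq_eq]
    simp [Fin.sum_univ_three]
  rw [sq, ← Quaternion.normSq_eq_norm_mul_self, Quaternion.normSq_def']
  have e0 : (ex u t).re = Real.cos t := by
    show Real.cos t + Real.sin t * 0 = _
    ring
  have e1 : (ex u t).imI = Real.sin t * u 0 := by
    show (0 : ℝ) + Real.sin t * u 0 = _
    ring
  have e2 : (ex u t).imJ = Real.sin t * u 1 := by
    show (0 : ℝ) + Real.sin t * u 1 = _
    ring
  have e3 : (ex u t).imK = Real.sin t * u 2 := by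
    show (0 : ℝ) + Real.sin t * u 2 = _
    ring
  rw [e0, e1, e2, e3]
  rw [hu, one_pow] at h0
  have := Real.sin_sq_add_cos_sq t
  nlinarith

theorem exists_ex (q : ℍ) (hq : ‖q‖ = 1) : ∃ (u : V3) (a : ℝ), ‖u‖ = 1 ∧ ex u a = q := by
  have h0 : q.re ^ 2 + ‖re3 q‖ ^ 2 = 1 := by
    have h1 : ‖q‖ ^ 2 = q.re ^ 2 + q.imI ^ 2 + q.imJ ^ 2 + q.imK ^ 2 := by
      rw [sq, ← Quaternion.normSq_eq_norm_mul_self, Quaternion.normSq_def']
    have h2 : ‖re3 q‖ ^ 2 = q.imI ^ 2 + q.imJ ^ 2 + q.imK ^ 2 := by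
      rw [EuclideanSpace.norm_sq_eq, Fin.sum_univ_three]
      simp [re3]
    rw [hq] at h1
    linarith
  obtain ⟨u, hu, hu2⟩ : ∃ u : V3, ‖u‖ = 1 ∧ re3 q = ‖re3 q‖ • u := by
    by_cases h : re3 q = 0
    · refine ⟨EuclideanSpace.single 0 1, by simp, ?_⟩
      rw [h, norm_zero, zero_smul]
    · refine ⟨‖re3 q‖⁻¹ • re3 q, ?_, ?_⟩
      · rw [norm_smul, norm_inv, norm_norm]
        exact inv_mul_cancel₀ (norm_ne_zero_iff.2 h)
      · rw [smul_smul, mul_inv_cancel₀ (norm_ne_zero_iff.2 h), one_smul]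
  refine ⟨u, Real.arccos q.re, hu, ?_⟩
  have h1 : -1 ≤ q.re := by nlinarith [sq_nonneg ‖re3 q‖]
  have h2 : q.re ≤ 1 := by nlinarith [sq_nonneg ‖re3 q‖]
  have h3 : Real.sin (Real.arccos q.re) = ‖re3 q‖ := by
    rw [Real.sin_arccos]
    have : 1 - q.re ^ 2 = ‖re3 q‖ ^ 2 := by linarith
    rw [this, Real.sqrt_sq (norm_nonneg _)]
  unfold ex
  rw [Real.cos_arccos h1 h2, h3, ← im3_smul, ← hu2]
  refine Quaternion.ext _ _ ?_ ?_ ?_ ?_
  · show q.re + 0 = q.re
    ring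
  · show 0 + q.imI = q.imI
    ring
  · show 0 + q.imJ = q.imJ
    ring
  · show 0 + q.imK = q.imK
    ring

theorem en_surj (q : ℍ) (hq : ‖q‖ = 1) : ∃ ξ, en ξ = q := by
  obtain ⟨u, a, hu, rfl⟩ := exists_ex q hq
  set g : ℝ →ᵇ V3 := BoundedContinuousFunction.const ℝ (a • u) with hg
  refine ⟨cc g, ?_⟩
  set c := sol (cc g) with hc
  obtain ⟨Cx, h1, h2, h3⟩ := exists_deriv g 0 1 c 0 (fun t => by
    rw [hc]
    conv_lhs => rw [sol_eq]
    simp)
  have he : ∀ t, HasDerivAt (fun t => ex u (a * t)) (a • (ex u (a * t) * im3 u)) t := by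
    intro t
    have h4 : HasDerivAt (fun t => a * t) (a * 1) t := (hasDerivAt_id t).const_mul a
    have h5 := (ex_hasDerivAt hu (a * t)).scomp t h4
    rwa [mul_one] at h5
  have hder : ∀ t, HasDerivAt (fun t => Cx t * star (ex u (a * t)))
      ((c t * im3 (g t) + (0 : X) t * im3 ((0 : ℝ →ᵇ V3) t)) * star (ex u (a * t)) +
        Cx t * star (a • (ex u (a * t) * im3 u))) t :=
    fun t => (h3 t).mul (hasDerivAt_star (he t))
  have hCc : Continuous Cx := continuous_iff_continuousAt.2 fun t => (h3 t).continuousAt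
  have hec : Continuous fun t => ex u (a * t) :=
    continuous_iff_continuousAt.2 fun t => (he t).continuousAt
  have hint := intervalIntegral.integral_eq_sub_of_hasDerivAt (a := 0) (b := 1)
    (fun t _ => hder t) (by
      apply Continuous.intervalIntegrable
      exact (((cg_cont g c).add (cg_cont 0 0)).mul (continuous_star.comp hec)).add
        (hCc.mul (continuous_star.comp ((hec.mul continuous_const).const_smul a))))
  have h01 : (1 : ℝ) ∈ Icc (0 : ℝ) 1 := ⟨zero_le_one, le_rfl⟩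
  have hcongr : ∫ s in (0 : ℝ)..1, ((c s * im3 (g s) + (0 : X) s * im3 ((0 : ℝ →ᵇ V3) s)) *
      star (ex u (a * s)) + Cx s * star (a • (ex u (a * s) * im3 u))) =
      ∫ s in (0 : ℝ)..1, (0 : ℍ) := by
    apply intervalIntegral.integral_congr
    intro s hs
    rw [uIcc_of_le zero_le_one] at hs
    show (c s * im3 (g s) + (0 : X) s * im3 ((0 : ℝ →ᵇ V3) s)) * star (ex u (a * s)) +
      Cx s * star (a • (ex u (a * s) * im3 u)) = 0
    have hgs : im3 (g s) = a • im3 u := by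
      rw [← im3_smul]
      rfl
    have hst : star (a • (ex u (a * s) * im3 u)) = -(a • (im3 u * star (ex u (a * s)))) := by
      have : star (a • (ex u (a * s) * im3 u)) = a • star (ex u (a * s) * im3 u) :=
        stL.map_smul a _
      rw [this, star_mul, star_im3, neg_mul, smul_neg]
    rw [h1 s hs, hgs, hst, BoundedContinuousFunction.coe_zero, Pi.zero_apply, zero_mul, add_zero,
      mul_smul_comm, smul_mul_assoc, mul_neg, mul_smul_comm, mul_assoc]
    exact add_neg_cancel _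
  rw [hcongr, intervalIntegral.integral_zero, h1 1 h01, h2, mul_zero, mul_one, ex_zero, star_one,
    mul_one] at hint
  have h5 : c 1 * star (ex u a) = 1 := by
    have := sub_eq_zero.1 hint.symm
    exact this
  show c 1 = ex u a
  calc c 1 = c 1 * (star (ex u a) * ex u a) := by rw [star_mul_self' (ex_norm_sq hu a), mul_one]
    _ = (c 1 * star (ex u a)) * ex u a := by rw [mul_assoc]
    _ = ex u a := by rw [h5, one_mul]

end Pool.Agent.Y503.HS
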