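import Pool.Agent.Y503.HS.Inv

/-!
# The solution of `c' = c ξ`, `c(0) = 1`, and its derivative with respect to the control
-/

open scoped Quaternion ENNReal Topology BoundedContinuousFunction Interval ContDiff
open Set MeasureTheory

noncomputable section

namespace Pool.Agent.Y503.HS

section Generic

variable {E Y : Type*} [NormedAddCommGroup E] [NormedSpace ℝ E] [NormedAddCommGroup Y]
  [NormedSpace ℝ Y] [CompleteSpace Y]

theorem res_contDiff (S : E →L[ℝ] Y →L[ℝ] Y) (hu : ∀ x, IsUnit (1 - S x)) :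
    ContDiff ℝ ∞ (fun x => Ring.inverse (1 - S x)) := by
  rw [contDiff_iff_contDiffAt]
  intro x
  obtain ⟨u, hu⟩ := hu x
  have h1 : ContDiffAt ℝ ∞ (Ring.inverse : (Y →L[ℝ] Y) → (Y →L[ℝ] Y)) (1 - S x) := by
    rw [← hu]
    exact contDiffAt_ringInverse ℝ u
  exact h1.comp x (contDiff_const.sub S.contDiff).contDiffAt

theorem res_contDiff_apply (S : E →L[ℝ] Y →L[ℝ] Y) (hu : ∀ x, IsUnit (1 - S x)) (y : Y) :
    ContDiff ℝ ∞ (fun x => Ring.inverse (1 - S x) y) :=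
  (res_contDiff S hu).clm_apply contDiff_const

theorem res_hasFDerivAt (S : E →L[ℝ] Y →L[ℝ] Y) (hu : ∀ x, IsUnit (1 - S x)) (y : Y) (x : E) :
    ∃ D : E →L[ℝ] Y, HasFDerivAt (fun x => Ring.inverse (1 - S x) y) D x ∧
      ∀ z, D z = Ring.inverse (1 - S x) (S z (Ring.inverse (1 - S x) y)) := by
  obtain ⟨u, hu⟩ := hu x
  have h1 := hasFDerivAt_ringInverse (𝕜 := ℝ) u
  rw [hu] at h1
  have h2 : HasFDerivAt (fun x => 1 - S x) (-S) x := S.hasFDerivAt.const_sub 1
  have h3 := h1.comp x h2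
  refine ⟨_, (ContinuousLinearMap.apply ℝ Y y).hasFDerivAt.comp x h3, ?_⟩
  intro z
  rw [← hu, Ring.inverse_unit]
  simp [ContinuousLinearMap.mulLeftRight_apply]

end Generic

/-- The resolvent. -/
def R (ξ : L2) : X →L[ℝ] X := Ring.inverse (1 - T ξ : X →L[ℝ] X)

theorem R_mul (ξ : L2) : R ξ * (1 - T ξ) = 1 := Ring.inverse_mul_cancel _ (isUnit_one_sub ξ)

theorem mul_R (ξ : L2) : (1 - T ξ) * R ξ = 1 := Ring.mul_inverse_cancel _ (isUnit_one_sub ξ)

theorem R_eq (ξ : L2) (d : X) : R ξ d = d + T ξ (R ξ d) := by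
  have h : ((1 - T ξ) * R ξ) d = d := by rw [mul_R]; rfl
  have h2 : ((1 - T ξ) * R ξ) d = R ξ d - T ξ (R ξ d) := rfl
  rw [h2] at h
  exact eq_add_of_sub_eq h

theorem R_unique (ξ : L2) (c d : X) (h : c = d + T ξ c) : c = R ξ d := by
  have h1 : d = (1 - T ξ : X →L[ℝ] X) c := by
    show d = c - T ξ c
    exact eq_sub_of_add_eq h.symm
  have h2 : (R ξ * (1 - T ξ)) c = c := by rw [R_mul]; rfl
  rw [h1]
  exact h2.symm

/-- The solution. -/
def sol (ξ : L2) : X := R ξ 1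

theorem sol_eq (ξ : L2) : sol ξ = 1 + T ξ (sol ξ) := R_eq ξ 1

theorem R_cont (d : X) : Continuous fun ξ : L2 => R ξ d :=
  (res_contDiff_apply T isUnit_one_sub d).continuous

theorem R_clm_cont : Continuous R := (res_contDiff T isUnit_one_sub).continuous

theorem contDiff_sol : ContDiff ℝ ∞ sol := res_contDiff_apply T isUnit_one_sub 1

theorem hasFDerivAt_sol (ξ : L2) :
    ∃ D : L2 →L[ℝ] X, HasFDerivAt sol D ξ ∧ ∀ η, D η = R ξ (T η (sol ξ)) :=
  res_hasFDerivAt T isUnit_one_sub 1 ξ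

/-! ### Continuous controls -/

/-- the class of a continuous control -/
abbrev cc (g : ℝ →ᵇ V3) : L2 := BoundedContinuousFunction.toLp 2 mu ℝ g

theorem cc_dense : DenseRange (cc : (ℝ →ᵇ V3) → L2) :=
  BoundedContinuousFunction.toLp_denseRange V3 mu ℝ (by norm_num)

theorem T_cc (g : ℝ →ᵇ V3) (c : X) {t : ℝ} (h0 : 0 ≤ t) (h1 : t ≤ 1) :
    T (cc g) c t = ∫ s in (0 : ℝ)..t, c s * im3 (g s) := by
  rw [T_apply]
  have e1 : ∫ s in (0 : ℝ)..t, c s * im3 (cc g s) ∂mu = ∫ s in (0 : ℝ)..t, c s * im3 (g s) ∂mu := by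
    apply intervalIntegral.integral_congr_ae
    filter_upwards [BoundedContinuousFunction.coeFn_toLp mu (p := 2) ℝ g] with s hs _
    rw [hs]
  rw [e1, intervalIntegral.integral_of_le h0, intervalIntegral.integral_of_le h0,
    Measure.restrict_restrict measurableSet_Ioc, Ioc_inter_Ioc]
  simp [h1]

theorem im3_cont : Continuous im3 := io.continuous

theorem cg_cont (g : ℝ →ᵇ V3) (c : X) : Continuous fun s => c s * im3 (g s) :=
  c.continuous.mul (im3_cont.comp g.continuous)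

/-- If `D = d + T g D + T h c` then, on `[0,1]`, `D` has the expected derivative. -/
theorem exists_deriv (g h : ℝ →ᵇ V3) (d : ℍ) (D c : X)
    (hD : ∀ t, D t = d + (T (cc g) D t + T (cc h) c t)) :
    ∃ Dx : ℝ → ℍ, (∀ t ∈ Icc (0 : ℝ) 1, Dx t = D t) ∧ Dx 0 = d ∧
      ∀ t, HasDerivAt Dx (D t * im3 (g t) + c t * im3 (h t)) t := by
  have hc : Continuous fun s => D s * im3 (g s) + c s * im3 (h s) :=
    (cg_cont g D).add (cg_cont h c)
  refine ⟨fun t => d + ∫ s in (0 : ℝ)..t, (D s * im3 (g s) + c s * im3 (h s)), ?_, ?_, ?_⟩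
  · intro t ht
    show d + _ = _
    rw [hD t, T_cc g D ht.1 ht.2, T_cc h c ht.1 ht.2, intervalIntegral.integral_add]
    · exact (cg_cont g D).intervalIntegrable _ _
    · exact (cg_cont h c).intervalIntegrable _ _
  · simp
  · intro t
    exact (intervalIntegral.integral_hasDerivAt_right (hc.intervalIntegrable _ _)
      (hc.stronglyMeasurableAtFilter _ _) hc.continuousAt).const_add d

theorem inner_mul_im (c : ℍ) (u : V3) : inner ℝ c (c * im3 u) = 0 := by
  have h : im3 u = ⟨0, u 0, u 1, u 2⟩ := rfl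
  have h1 : ∀ a b : ℍ, inner ℝ a b = a.re * b.re + a.imI * b.imI + a.imJ * b.imJ + a.imK * b.imK := by
    intro a b
    rw [Quaternion.inner_def]
    simp
  rw [h1]
  simp only [Quaternion.re_mul, Quaternion.imI_mul, Quaternion.imJ_mul, Quaternion.imK_mul, h]
  ring

theorem const_of_deriv {f : ℝ → ℝ} (f' : ℝ → ℝ) (h : ∀ t, HasDerivAt f (f' t) t)
    (h0 : ∀ t ∈ Icc (0 : ℝ) 1, f' t = 0) : ∀ t ∈ Icc (0 : ℝ) 1, f t = f 0 := by
  intro t ht
  have h1 : ContinuousOn f (Icc 0 1) := fun s _ => (h s).continuousAt.continuousWithinAt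
  have h2 := constant_of_has_deriv_right_zero h1 (fun s hs => by
    have := (h s).hasDerivWithinAt (s := Ici s)
    rwa [h0 s ⟨hs.1, hs.2.le⟩] at this)
  exact h2 t ht

theorem sol_cc_norm (g : ℝ →ᵇ V3) : ∀ t ∈ Icc (0 : ℝ) 1, ‖sol (cc g) t‖ ^ 2 = 1 := by
  obtain ⟨Cx, h1, h2, h3⟩ := exists_deriv g 0 1 (sol (cc g)) 0 (fun t => by
    conv_lhs => rw [sol_eq]
    simp)
  intro t ht
  have h4 : ∀ t, HasDerivAt (fun t => ‖Cx t‖ ^ 2)
      (2 * inner ℝ (Cx t) (sol (cc g) t * im3 (g t) + (0 : X) t * im3 ((0 : ℝ →ᵇ V3) t))) t := by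
    intro t
    exact (h3 t).norm_sq
  have h5 := const_of_deriv _ h4 (fun s hs => by
    rw [h1 s hs]
    simp only [BoundedContinuousFunction.coe_zero, Pi.zero_apply, zero_mul, add_zero]
    rw [inner_mul_im, mul_zero]) t ht
  have h6 : ‖Cx t‖ ^ 2 = ‖Cx 0‖ ^ 2 := h5
  rw [h1 t ht, h2, norm_one, one_pow] at h6
  exact h6

theorem sol_norm_sq (ξ : L2) : ∀ t ∈ Icc (0 : ℝ) 1, ‖sol ξ t‖ ^ 2 = 1 := by
  intro t ht
  have hc : Continuous fun ξ : L2 => ‖sol ξ t‖ ^ 2 := by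
    have h1 : Continuous fun ξ : L2 => sol ξ t :=
      (BoundedContinuousFunction.evalCLM ℝ t).continuous.comp contDiff_sol.continuous
    exact (h1.norm).pow 2
  exact cc_dense.induction_on (p := fun ξ : L2 => ‖sol ξ t‖ ^ 2 = 1) ξ
    (isClosed_eq hc continuous_const) (fun g => sol_cc_norm g t ht)

end Pool.Agent.Y503.HS
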