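import Mathlib

/-!
# The Volterra operator of a square integrable control with values in the imaginary quaternions
-/

open scoped Quaternion ENNReal Topology BoundedContinuousFunction
open Set MeasureTheory

noncomputable section

namespace Pool.Agent.Y503.HS

/-- Lebesgue measure on `(0, 1]`, as a measure on the line. -/
abbrev mu : Measure ℝ := volume.restrict (Ioc 0 1)

/-- The Euclidean space of dimension three. -/
abbrev V3 : Type := EuclideanSpace ℝ (Fin 3)

/-- The inclusion of the imaginary quaternions. -/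
def im3 (v : V3) : ℍ := ⟨0, v 0, v 1, v 2⟩

/-- The imaginary part. -/
def re3 (q : ℍ) : V3 := !₂[q.imI, q.imJ, q.imK]

theorem normSq_im3 (v : V3) : ‖im3 v‖ ^ 2 = ‖v‖ ^ 2 := by
  rw [sq, ← Quaternion.normSq_eq_norm_mul_self, Quaternion.normSq_def', EuclideanSpace.norm_sq_eq]
  simp [im3, Fin.sum_univ_three]

theorem norm_im3 (v : V3) : ‖im3 v‖ = ‖v‖ := by
  have := normSq_im3 v
  exact (sq_eq_sq₀ (norm_nonneg _) (norm_nonneg _)).1 this

theorem im3_add (v w : V3) : im3 (v + w) = im3 v + im3 w :=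
  Quaternion.ext _ _ (add_zero (0 : ℝ)).symm rfl rfl rfl

theorem im3_smul (r : ℝ) (v : V3) : im3 (r • v) = r • im3 v :=
  Quaternion.ext _ _ (mul_zero r).symm rfl rfl rfl

/-- The inclusion of the imaginary quaternions, as a linear isometry. -/
def io : V3 →ₗᵢ[ℝ] ℍ where
  toFun := im3
  map_add' := im3_add
  map_smul' := im3_smul
  norm_map' := norm_im3

@[simp] theorem io_apply (v : V3) : io v = im3 v := rfl

/-- The controls. -/
abbrev L2 : Type := Lp V3 2 mu

/-- The bounded continuous quaternion valued functions on the line. -/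
abbrev X : Type := ℝ →ᵇ ℍ

theorem L2_memLp (ξ : L2) : MemLp (fun s => (ξ s : V3)) 2 mu := Lp.memLp ξ

theorem L2_integrable (ξ : L2) : Integrable (fun s => (ξ s : V3)) mu :=
  (L2_memLp ξ).integrable (by norm_num)

theorem L2_integrable_norm (ξ : L2) : Integrable (fun s => ‖ξ s‖) mu := (L2_integrable ξ).norm

theorem L2_sq (ξ : L2) : Integrable (fun s => ‖ξ s‖ ^ 2) mu := (L2_memLp ξ).integrable_norm_pow (by norm_num)

theorem L2_norm_sq (ξ : L2) : ‖ξ‖ ^ 2 = ∫ s, ‖ξ s‖ ^ 2 ∂mu := by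
  rw [← real_inner_self_eq_norm_sq, L2.inner_def]
  simp only [real_inner_self_eq_norm_sq]

theorem mu_univ : mu univ = 1 := by
  rw [Measure.restrict_apply MeasurableSet.univ, univ_inter, Real.volume_Ioc]
  norm_num

instance : IsProbabilityMeasure mu := ⟨mu_univ⟩

theorem int_norm_le (ξ : L2) : ∫ s, ‖ξ s‖ ∂mu ≤ ‖ξ‖ := by
  have h : ∀ δ : ℝ, 0 < δ → 2 * ∫ s, ‖ξ s‖ ∂mu ≤ δ + δ⁻¹ * ‖ξ‖ ^ 2 := by
    intro δ hδ
    rw [L2_norm_sq, ← integral_const_mul, ← integral_const_mul]
    have h2 : ∫ _, δ ∂mu = δ := by simp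
    rw [← h2, ← integral_add (integrable_const _) ((L2_sq ξ).const_mul _), h2]
    apply integral_mono ((L2_integrable_norm ξ).const_mul _)
      ((integrable_const _).add ((L2_sq ξ).const_mul _))
    intro s
    show 2 * ‖ξ s‖ ≤ δ + δ⁻¹ * ‖ξ s‖ ^ 2
    have h3 : δ⁻¹ * (δ - ‖ξ s‖) ^ 2 = δ + δ⁻¹ * ‖ξ s‖ ^ 2 - 2 * ‖ξ s‖ := by
      field_simp
      ring
    have h4 : 0 ≤ δ⁻¹ * (δ - ‖ξ s‖) ^ 2 := by positivity
    linarith
  rcases (norm_nonneg ξ).eq_or_lt with h0 | h0
  · have h1 : ∀ δ : ℝ, 0 < δ → ∫ s, ‖ξ s‖ ∂mu ≤ δ := by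
      intro δ hδ
      have := h (2 * δ) (by positivity)
      rw [← h0] at this
      linarith
    rw [← h0]
    exact le_of_forall_pos_le_add (fun ε hε => by linarith [h1 ε hε])
  · have := h ‖ξ‖ h0
    have h2 : ‖ξ‖⁻¹ * ‖ξ‖ ^ 2 = ‖ξ‖ := by field_simp
    linarith

theorem prod_integrable (c : X) (ξ : L2) : Integrable (fun s => c s * im3 (ξ s)) mu := by
  have h1 : Integrable (fun s => io (ξ s)) mu := io.toContinuousLinearMap.integrable_comp (L2_integrable ξ)
  exact h1.bdd_mul c.continuous.aestronglyMeasurable (Filter.Eventually.of_forall c.norm_coe_le_norm)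

/-- `∫₀ᵗ c ξ`. -/
def vol (ξ : L2) (c : X) (t : ℝ) : ℍ := ∫ s in (0 : ℝ)..t, c s * im3 (ξ s) ∂mu

theorem vol_norm (ξ : L2) (c : X) (t : ℝ) : ‖vol ξ c t‖ ≤ ‖ξ‖ * ‖c‖ := by
  unfold vol
  refine (intervalIntegral.norm_integral_le_integral_norm_uIoc).trans ?_
  refine (setIntegral_le_integral (prod_integrable c ξ).norm
    (Filter.Eventually.of_forall fun _ => norm_nonneg _)).trans ?_
  calc ∫ s, ‖c s * im3 (ξ s)‖ ∂mu ≤ ∫ s, ‖c‖ * ‖ξ s‖ ∂mu := by
        apply integral_mono (prod_integrable c ξ).norm ((L2_integrable_norm ξ).const_mul _)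
        intro s
        show ‖c s * im3 (ξ s)‖ ≤ ‖c‖ * ‖ξ s‖
        rw [norm_mul, norm_im3]
        exact mul_le_mul_of_nonneg_right (c.norm_coe_le_norm s) (norm_nonneg _)
    _ = ‖c‖ * ∫ s, ‖ξ s‖ ∂mu := integral_const_mul _ _
    _ ≤ ‖c‖ * ‖ξ‖ := mul_le_mul_of_nonneg_left (int_norm_le ξ) (norm_nonneg _)
    _ = ‖ξ‖ * ‖c‖ := mul_comm _ _

theorem vol_cont (ξ : L2) (c : X) : Continuous (vol ξ c) := by
  unfold vol
  exact intervalIntegral.continuous_primitive
    (fun a b => (prod_integrable c ξ).intervalIntegrable) 0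

theorem vol_add_left (ξ η : L2) (c : X) (t : ℝ) : vol (ξ + η) c t = vol ξ c t + vol η c t := by
  unfold vol
  rw [← intervalIntegral.integral_add (prod_integrable c ξ).intervalIntegrable
    (prod_integrable c η).intervalIntegrable]
  apply intervalIntegral.integral_congr_ae
  filter_upwards [Lp.coeFn_add ξ η] with s hs _
  rw [hs, Pi.add_apply, im3_add, mul_add]

theorem vol_smul_left (r : ℝ) (ξ : L2) (c : X) (t : ℝ) : vol (r • ξ) c t = r • vol ξ c t := by
  unfold vol
  rw [← intervalIntegral.integral_smul]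
  apply intervalIntegral.integral_congr_ae
  filter_upwards [Lp.coeFn_smul r ξ] with s hs _
  rw [hs, Pi.smul_apply, im3_smul, mul_smul_comm]

theorem vol_add_right (ξ : L2) (c d : X) (t : ℝ) : vol ξ (c + d) t = vol ξ c t + vol ξ d t := by
  unfold vol
  rw [← intervalIntegral.integral_add (prod_integrable c ξ).intervalIntegrable
    (prod_integrable d ξ).intervalIntegrable]
  congr 1
  funext s
  rw [BoundedContinuousFunction.add_apply, add_mul]

theorem vol_smul_right (r : ℝ) (ξ : L2) (c : X) (t : ℝ) : vol ξ (r • c) t = r • vol ξ c t := by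
  unfold vol
  rw [← intervalIntegral.integral_smul]
  congr 1
  funext s
  rw [BoundedContinuousFunction.smul_apply, smul_mul_assoc]

/-- The Volterra operator as a bounded continuous function. -/
def volX (ξ : L2) (c : X) : X :=
  BoundedContinuousFunction.ofNormedAddCommGroup (vol ξ c) (vol_cont ξ c) (‖ξ‖ * ‖c‖) (vol_norm ξ c)

@[simp] theorem volX_apply (ξ : L2) (c : X) (t : ℝ) : volX ξ c t = vol ξ c t := rfl

theorem volX_norm (ξ : L2) (c : X) : ‖volX ξ c‖ ≤ ‖ξ‖ * ‖c‖ :=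
  BoundedContinuousFunction.norm_ofNormedAddCommGroup_le _ (by positivity) (vol_norm ξ c)

/-- The Volterra operator. -/
def T : L2 →L[ℝ] X →L[ℝ] X :=
  LinearMap.mkContinuous₂
    (LinearMap.mk₂ ℝ volX
      (fun ξ η c => BoundedContinuousFunction.ext fun t => vol_add_left ξ η c t)
      (fun r ξ c => BoundedContinuousFunction.ext fun t => vol_smul_left r ξ c t)
      (fun ξ c d => BoundedContinuousFunction.ext fun t => vol_add_right ξ c d t)
      (fun r ξ c => BoundedContinuousFunction.ext fun t => vol_smul_right r ξ c t))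
    1 (fun ξ c => by
      show ‖volX ξ c‖ ≤ 1 * ‖ξ‖ * ‖c‖
      rw [one_mul]
      exact volX_norm ξ c)

theorem T_apply (ξ : L2) (c : X) (t : ℝ) : T ξ c t = ∫ s in (0 : ℝ)..t, c s * im3 (ξ s) ∂mu := rfl

end Pool.Agent.Y503.HS
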